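import Pool.Agent.TH91.NB.Defs
import Pool.Agent.TH91.RF.Ex2

/-!
# Graded matrices: the degree filtration, integral matrices, the rational closure
-/

set_option autoImplicit false

namespace Pool.Agent.TH365.NB

open Finset Pool.Agent.TH91.RF Pool.Agent.TH91.NB

variable {V : Type} [Fintype V] [DecidableEq V]

/-- the nilpotency bound -/
def nN (deg : V → ℕ) : ℕ := Finset.univ.sup deg + 1

omit [DecidableEq V] in
theorem deg_lt (deg : V → ℕ) (v : V) : deg v < nN deg :=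
  Nat.lt_succ_of_le (Finset.le_sup (Finset.mem_univ v))

/-- the degree filtration -/
def gF (R : Type) [CommRing R] [Algebra ℚ R] (deg : V → ℕ) : Filt (Matrix V V R) (nN deg) where
  F k :=
    { carrier := {M | ∀ v w, deg v < deg w + k → M v w = 0}
      add_mem' := by
        intro a b ha hb i j hij
        rw [Matrix.add_apply, ha i j hij, hb i j hij, add_zero]
      zero_mem' := by
        intro i j _
        rfl
      smul_mem' := by
        intro c x hx i j hij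
        rw [Matrix.smul_apply, hx i j hij, smul_zero] }
  anti := by
    intro i j hij x hx a b hab
    exact hx a b (by omega)
  mul := by
    intro i j x y hx hy a b hab
    rw [Matrix.mul_apply]
    refine sum_eq_zero fun c _ => ?_
    by_cases h : deg a < deg c + i
    · rw [hx a c h, zero_mul]
    · rw [hy c b (by omega), mul_zero]
  bot := by
    intro x hx
    ext i j
    have := deg_lt deg i
    exact hx i j (by omega)

variable {R : Type} [CommRing R] [Algebra ℚ R] {deg : V → ℕ}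

theorem mem_gF {k : ℕ} {M : Matrix V V R} :
    M ∈ (gF R deg).F k ↔ ∀ v w, deg v < deg w + k → M v w = 0 := Iff.rfl

/-- integral rational matrices -/
def iM (V : Type) [Fintype V] [DecidableEq V] : AddSubgroup (Matrix V V ℚ) where
  carrier := {M | ∀ v w, ∃ z : ℤ, M v w = z}
  add_mem' := by
    intro a b ha hb v w
    obtain ⟨x, hx⟩ := ha v w
    obtain ⟨y, hy⟩ := hb v w
    exact ⟨x + y, by rw [Matrix.add_apply, hx, hy]; push_cast; rfl⟩
  zero_mem' := fun v w => ⟨0, by simp⟩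
  neg_mem' := by
    intro a ha v w
    obtain ⟨x, hx⟩ := ha v w
    exact ⟨-x, by rw [Matrix.neg_apply, hx]; push_cast; rfl⟩

theorem mem_iM {M : Matrix V V ℚ} : M ∈ iM V ↔ ∀ v w, ∃ z : ℤ, M v w = z := Iff.rfl

theorem iM_one : (1 : Matrix V V ℚ) ∈ iM V := by
  intro v w
  by_cases h : v = w
  · exact ⟨1, by rw [h, Matrix.one_apply_eq]; simp⟩
  · exact ⟨0, by rw [Matrix.one_apply_ne h]; simp⟩

theorem iM_mul {a b : Matrix V V ℚ} (ha : a ∈ iM V) (hb : b ∈ iM V) : a * b ∈ iM V := by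
  intro v w
  choose x hx using ha
  choose y hy using hb
  refine ⟨∑ u, x v u * y u w, ?_⟩
  rw [Matrix.mul_apply]
  push_cast
  exact sum_congr rfl fun u _ => by rw [hx, hy]

theorem iM_pow {a : Matrix V V ℚ} (ha : a ∈ iM V) (k : ℕ) : a ^ k ∈ iM V := by
  induction k with
  | zero => rw [pow_zero]; exact iM_one
  | succ k ih => rw [pow_succ]; exact iM_mul ih ha

theorem iM_fg : (AddSubgroup.toIntSubmodule (iM V)).FG := by
  let f : (V → V → ℤ) →ₗ[ℤ] Matrix V V ℚ :=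
    { toFun := fun x => Matrix.of fun v w => (x v w : ℚ)
      map_add' := by
        intro x y
        ext v w
        simp
      map_smul' := by
        intro c x
        ext v w
        simp }
  have h : AddSubgroup.toIntSubmodule (iM V) = LinearMap.range f := by
    ext x
    constructor
    · intro hx
      have hx' : ∀ v w, ∃ z : ℤ, x v w = z := hx
      choose z hz using hx'
      exact ⟨z, by ext v w; exact (hz v w).symm⟩
    · rintro ⟨z, rfl⟩
      intro v w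
      exact ⟨z v w, rfl⟩
  rw [h]
  exact Submodule.FG.of_finite

theorem fg_of_le_iM {Λ : AddSubgroup (Matrix V V ℚ)} (h : Λ ≤ iM V) :
    (AddSubgroup.toIntSubmodule Λ).FG := by
  have h1 : IsNoetherian ℤ (AddSubgroup.toIntSubmodule (iM V)) :=
    isNoetherian_of_fg_of_noetherian _ iM_fg
  exact (isNoetherian_submodule.1 h1) _ h

theorem exists_smul_iM (X : Matrix V V ℚ) : ∃ m : ℕ, 0 < m ∧ m • X ∈ iM V := by
  refine ⟨∏ l : V × V, (X l.1 l.2).den, Finset.prod_pos fun l _ => Rat.pos _, fun v w => ?_⟩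
  obtain ⟨c, hc⟩ : (X v w).den ∣ ∏ l : V × V, (X l.1 l.2).den := Finset.dvd_prod_of_mem
      (fun l : V × V => (X l.1 l.2).den) (mem_univ (v, w))
  refine ⟨c * (X v w).num, ?_⟩
  rw [Matrix.smul_apply, hc, nsmul_eq_mul]
  push_cast
  rw [mul_comm ((X v w).den : ℚ), mul_assoc, mul_comm ((X v w).den : ℚ), Rat.mul_den_eq_num]

/-- the integral elements of a subspace -/
def lat (W : Submodule ℚ (Matrix V V ℚ)) : AddSubgroup (Matrix V V ℚ) := W.toAddSubgroup ⊓ iM V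

theorem mem_lat {W : Submodule ℚ (Matrix V V ℚ)} {x : Matrix V V ℚ} :
    x ∈ lat W ↔ x ∈ W ∧ x ∈ iM V := Iff.rfl

theorem lat_fg (W : Submodule ℚ (Matrix V V ℚ)) : (AddSubgroup.toIntSubmodule (lat W)).FG :=
  fg_of_le_iM fun _ h => h.2

theorem exists_smul_lat {W : Submodule ℚ (Matrix V V ℚ)} {x : Matrix V V ℚ} (hx : x ∈ W) :
    ∃ m : ℕ, 0 < m ∧ m • x ∈ lat W := by
  obtain ⟨m, hm, h⟩ := exists_smul_iM x
  exact ⟨m, hm, W.nsmul_mem hx m, h⟩

theorem lat_lieRg {W : Submodule ℚ (Matrix V V ℚ)} (hW1 : W ≤ (gF ℚ deg).F 1)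
    (hbr : ∀ u ∈ W, ∀ v ∈ W, u * v - v * u ∈ W) : LieRg (gF ℚ deg) (lat W) :=
  ⟨fun x hx => hW1 hx.1, fun u hu v hv => ⟨hbr u hu.1 v hv.1,
    (iM V).sub_mem (iM_mul hu.2 hv.2) (iM_mul hv.2 hu.2)⟩⟩

section iso

variable {G : Type*} [Group G] {ρ : G →* Matrix V V ℚ}

/-- the addition step -/
theorem isoSet_addG {k : ℕ} (hk : 1 ≤ k) (J : Submodule ℚ (Matrix V V ℚ))
    (hJ : ∀ x, x ∈ J ↔ x ∈ isoSet (gF ℚ deg) ρ ∧ x ∈ (gF ℚ deg).F (k + 1))
    {x y : Matrix V V ℚ} (hx : x ∈ isoSet (gF ℚ deg) ρ) (hxk : x ∈ (gF ℚ deg).F k)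
    (hy : y ∈ isoSet (gF ℚ deg) ρ) (hyk : y ∈ (gF ℚ deg).F k) :
    x + y ∈ isoSet (gF ℚ deg) ρ := by
  set Φ := gF ℚ deg with hΦ
  set S : Set (Matrix V V ℚ) := {x, y} ∪ J with hS
  have hSiso : ∀ u ∈ S, u ∈ isoSet Φ ρ ∧ u ∈ Φ.F k := by
    rintro u (hu | hu)
    · rcases hu with rfl | hu
      · exact ⟨hx, hxk⟩
      · rw [Set.mem_singleton_iff.1 hu]
        exact ⟨hy, hyk⟩
    · have h1 := (hJ u).1 hu
      exact ⟨h1.1, Φ.anti (by omega) h1.2⟩
  set W := Submodule.span ℚ S with hV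
  have hbr : ∀ u ∈ W, ∀ v ∈ W, u * v - v * u ∈ J := by
    intro u hu v hv
    induction hu using Submodule.span_induction with
    | mem u hu =>
      induction hv using Submodule.span_induction with
      | mem v hv =>
        exact isoSet_bracket hk J hJ (hSiso u hu).1 (hSiso v hv).1 (hSiso v hv).2
      | zero => simp
      | add a b _ _ iha ihb =>
        have e : u * (a + b) - (a + b) * u = (u * a - a * u) + (u * b - b * u) := by noncomm_ring
        rw [e]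
        exact J.add_mem iha ihb
      | smul c a _ iha =>
        have e : u * (c • a) - (c • a) * u = c • (u * a - a * u) := by
          rw [mul_smul_comm, smul_mul_assoc, smul_sub]
        rw [e]
        exact J.smul_mem c iha
    | zero => simp
    | add a b _ _ iha ihb =>
      have e : (a + b) * v - v * (a + b) = (a * v - v * a) + (b * v - v * b) := by noncomm_ring
      rw [e]
      exact J.add_mem iha ihb
    | smul c a _ iha =>
      have e : (c • a) * v - v * (c • a) = c • (a * v - v * a) := by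
        rw [mul_smul_comm, smul_mul_assoc, smul_sub]
      rw [e]
      exact J.smul_mem c iha
  have hJV : J ≤ W := fun u hu => Submodule.subset_span (Or.inr hu)
  have hWF : W ≤ Φ.F 1 := Submodule.span_le.2 fun u hu => (hSiso u hu).1.1
  set Λ := lat W with hΛ
  have hΛrg : LieRg Φ Λ := lat_lieRg hWF fun u hu v hv => hJV (hbr u hu v hv)
  set ΛJ : AddSubgroup (Matrix V V ℚ) := Λ ⊓ J.toAddSubgroup with hΛJ
  have hbrΛ : ∀ u ∈ Λ, ∀ v ∈ Λ, u * v - v * u ∈ ΛJ := by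
    intro u hu v hv
    rw [hΛJ, AddSubgroup.mem_inf]
    exact ⟨hΛrg.br u hu v hv, hbr u hu.1 v hv.1⟩
  have hΛJrg : LieRg Φ ΛJ := by
    refine ⟨fun u hu => hΛrg.le u hu.1, fun u hu v hv => hbrΛ u hu.1 v hv.1⟩
  have hfg : (AddSubgroup.toIntSubmodule ΛJ).FG := fg_of_le_iM fun u hu => hu.1.2
  obtain ⟨q', hq', huni⟩ := exists_uniform Φ hΛJrg hfg ρ (by
    intro u hu
    have h1 := ((hJ u).1 hu.2).1
    exact h1.2)
  obtain ⟨c₁, hc₁, hc₁x⟩ := exists_smul_lat (W := W) (Submodule.subset_span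
    (Or.inl (Or.inl rfl)) : x ∈ W)
  obtain ⟨c₂, hc₂, hc₂y⟩ := exists_smul_lat (W := W) (Submodule.subset_span
    (Or.inl (Or.inr rfl)) : y ∈ W)
  obtain ⟨hx1, m₁, hm₁, g₁, hg₁⟩ := hx
  obtain ⟨hy1, m₂, hm₂, g₂, hg₂⟩ := hy
  set q := bigM (nN deg) * (q' * (m₁ * m₂)) with hq
  have hq0 : 0 < q := Nat.mul_pos (bigM_pos _) (Nat.mul_pos hq' (Nat.mul_pos hm₁ hm₂))
  set T' := scl q Λ with hT'
  set J₀ := scl (q * q') ΛJ with hJ₀
  have hTJ : ∀ u ∈ T', ∀ v ∈ T', (bigM (nN deg) : ℚ)⁻¹ • (u * v - v * u) ∈ J₀ := by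
    intro u hu v hv
    obtain ⟨a, ha, rfl⟩ := mem_scl.1 hu
    obtain ⟨a', ha', rfl⟩ := mem_scl.1 hv
    rw [scl_br hq]
    refine mem_scl.2 ⟨(m₁ * m₂) • (a * a' - a' * a), ΛJ.nsmul_mem (hbrΛ a ha a' ha') _, ?_⟩
    rw [smul_smul]
    congr 1
    ring
  have hJT : J₀ ≤ T' := by
    intro u hu
    obtain ⟨a, ha, rfl⟩ := mem_scl.1 hu
    refine mem_scl.2 ⟨q' • a, Λ.nsmul_mem ha.1 _, ?_⟩
    rw [smul_smul]
  have hTL : LieLat Φ T' := by
    refine ⟨?_, fun u hu v hv => hJT (hTJ u hu v hv)⟩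
    intro u hu
    obtain ⟨a, ha, rfl⟩ := mem_scl.1 hu
    exact (Φ.F 1).nsmul_mem (hΛrg.le a ha) q
  have hJI : LieIdl (nN deg) T' J₀ := ⟨hJT, fun u hu v hv => hTJ u hu v (hJT hv)⟩
  have hJρ : ∀ j ∈ J₀, ∃ g, ρ g = IsNilpotent.exp j := by
    intro j hj
    obtain ⟨a, ha, rfl⟩ := mem_scl.1 hj
    rw [mul_comm, mul_smul]
    exact huni _ (ΛJ.nsmul_mem ha _)
  -- the multiples of `x` and `y`
  set c := c₁ * c₂ with hc
  have hc0 : 0 < c := Nat.mul_pos hc₁ hc₂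
  have hu₁ : q • (c • x) ∈ T' := by
    refine mem_scl.2 ⟨c • x, ?_, rfl⟩
    rw [hc, mul_comm, mul_smul]
    exact Λ.nsmul_mem hc₁x _
  have hu₂ : q • (c • y) ∈ T' := by
    refine mem_scl.2 ⟨c • y, ?_, rfl⟩
    rw [hc, mul_smul]
    exact Λ.nsmul_mem hc₂y _
  have hρ₁ : ∃ g, ρ g = IsNilpotent.exp (q • (c • x)) := by
    refine ⟨g₁ ^ (bigM (nN deg) * q' * m₂ * c), ?_⟩
    rw [map_pow, hg₁, ← exp_nsmul ((Φ.F 1).nsmul_mem hx1 m₁)]
    congr 1
    rw [smul_smul, smul_smul]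
    congr 1
    rw [hq]
    ring
  have hρ₂ : ∃ g, ρ g = IsNilpotent.exp (q • (c • y)) := by
    refine ⟨g₂ ^ (bigM (nN deg) * q' * m₁ * c), ?_⟩
    rw [map_pow, hg₂, ← exp_nsmul ((Φ.F 1).nsmul_mem hy1 m₂)]
    congr 1
    rw [smul_smul, smul_smul]
    congr 1
    rw [hq]
    ring
  obtain ⟨γ₁, hγ₁⟩ := hρ₁
  obtain ⟨γ₂, hγ₂⟩ := hρ₂
  obtain ⟨j, hj, h1⟩ := hTL.exp_mul_add hJI hu₁ hu₂ (hTJ _ hu₁ _ hu₂)
  obtain ⟨j', hj', h2⟩ := hTL.exp_coset hJI
    (T'.add_mem (T'.add_mem hu₁ hu₂) (hJT hj)) (T'.add_mem hu₁ hu₂) (by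
      have : q • (c • x) + q • (c • y) - (q • (c • x) + q • (c • y) + j) = -j := by abel
      rw [this]
      exact J₀.neg_mem hj)
  obtain ⟨γ₃, hγ₃⟩ := hJρ j' hj'
  refine ⟨Submodule.add_mem _ hx1 hy1, q * c, Nat.mul_pos hq0 hc0, γ₁ * γ₂ * γ₃, ?_⟩
  have e : (q * c) • (x + y) = q • (c • x) + q • (c • y) := by
    rw [mul_smul, smul_add, smul_add]
  rw [e, h2, ← h1, map_mul, map_mul, hγ₁, hγ₂, hγ₃]

theorem isoSet_closedG : ∀ j k : ℕ, nN deg ≤ k + j → 1 ≤ k →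
    ∃ J : Submodule ℚ (Matrix V V ℚ),
      ∀ x, x ∈ J ↔ x ∈ isoSet (gF ℚ deg) ρ ∧ x ∈ (gF ℚ deg).F k := by
  have hzero : (0 : Matrix V V ℚ) ∈ isoSet (gF ℚ deg) ρ :=
    ⟨Submodule.zero_mem _, 1, one_pos, 1, by simp⟩
  intro j
  induction j with
  | zero =>
    intro k hk hk1
    refine ⟨⊥, fun x => ?_⟩
    rw [Submodule.mem_bot]
    constructor
    · rintro rfl
      exact ⟨hzero, Submodule.zero_mem _⟩
    · rintro ⟨_, hx⟩
      exact (gF ℚ deg).eq_zero_of_le hk hx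
  | succ j ih =>
    intro k hk hk1
    obtain ⟨J, hJ⟩ := ih (k + 1) (by omega) (by omega)
    exact ⟨{ carrier := {x | x ∈ isoSet (gF ℚ deg) ρ ∧ x ∈ (gF ℚ deg).F k}
             add_mem' := fun {a b} ha hb => ⟨isoSet_addG hk1 J hJ ha.1 ha.2 hb.1 hb.2,
               Submodule.add_mem _ ha.2 hb.2⟩
             zero_mem' := ⟨hzero, Submodule.zero_mem _⟩
             smul_mem' := fun c {x} hx => ⟨isoSet_smul hx.1 c, Submodule.smul_mem _ _ hx.2⟩ },
      fun x => Iff.rfl⟩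

/-- the rational closure is a Lie algebra -/
theorem exists_L (deg : V → ℕ) (ρ : G →* Matrix V V ℚ) : ∃ L : Submodule ℚ (Matrix V V ℚ),
    (∀ x, x ∈ L ↔ x ∈ isoSet (gF ℚ deg) ρ) ∧ ∀ u ∈ L, ∀ v ∈ L, u * v - v * u ∈ L := by
  obtain ⟨J, hJ⟩ := isoSet_closedG (deg := deg) (ρ := ρ) (nN deg) 1 (by omega) le_rfl
  obtain ⟨J₂, hJ₂⟩ := isoSet_closedG (deg := deg) (ρ := ρ) (nN deg) 2 (by omega) (by omega)
  have hJ1 : ∀ x, x ∈ J ↔ x ∈ isoSet (gF ℚ deg) ρ := by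
    intro x
    rw [hJ]
    exact ⟨fun h => h.1, fun h => ⟨h, h.1⟩⟩
  refine ⟨J, hJ1, fun u hu v hv => ?_⟩
  rw [hJ1] at hu hv
  have h1 := isoSet_bracket le_rfl J₂ hJ₂ hu hv hv.1
  exact (hJ1 _).2 ((hJ₂ _).1 h1).1

end iso

end Pool.Agent.TH365.NB
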