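import Pool.Agent.TH365.NB.A1

/-!
# Dilations, and the grading of the rational closure
-/

set_option autoImplicit false

namespace Pool.Agent.TH365.NB

open Finset Pool.Agent.TH91.RF Pool.Agent.TH91.NB

variable {V : Type} [Fintype V] [DecidableEq V]

section comp
variable {R : Type} [CommRing R] [Algebra ℚ R] {deg : V → ℕ}

/-- the homogeneous component of degree `k` -/
def comp (deg : V → ℕ) (k : ℕ) (M : Matrix V V R) : Matrix V V R :=
  Matrix.of fun v w => if deg v = deg w + k then M v w else 0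

omit [Fintype V] [DecidableEq V] [Algebra ℚ R] in
theorem comp_apply (k : ℕ) (M : Matrix V V R) (v w : V) :
    comp deg k M v w = if deg v = deg w + k then M v w else 0 := rfl

theorem comp_mem (k : ℕ) (M : Matrix V V R) : comp deg k M ∈ (gF R deg).F k := by
  intro v w h
  rw [comp_apply, if_neg (by omega)]

omit [DecidableEq V] [Algebra ℚ R] in
theorem comp_eq_zero {k : ℕ} (hk : nN deg ≤ k) (M : Matrix V V R) : comp deg k M = 0 := by
  ext v w
  have := deg_lt deg v
  rw [comp_apply, if_neg (by omega)]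
  rfl

theorem comp_zero_of_mem {M : Matrix V V R} (hM : M ∈ (gF R deg).F 1) : comp deg 0 M = 0 := by
  ext v w
  rw [comp_apply]
  split_ifs with h
  · exact hM v w (by omega)
  · rfl

theorem sub_comp_mem {k : ℕ} {M : Matrix V V R} (hM : M ∈ (gF R deg).F k) :
    M - comp deg k M ∈ (gF R deg).F (k + 1) := by
  intro v w h
  rw [Matrix.sub_apply, comp_apply]
  split_ifs with h1
  · exact sub_self _
  · rw [hM v w (by omega), sub_zero]

end comp

/-- diagonal matrix of a dilation -/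
def dg (deg : V → ℕ) (c : ℚ) : Matrix V V ℚ := Matrix.diagonal fun v => c ^ deg v

theorem dg_mul (deg : V → ℕ) {c : ℚ} (hc : c ≠ 0) : dg deg c * dg deg c⁻¹ = 1 := by
  unfold dg
  rw [Matrix.diagonal_mul_diagonal, ← Matrix.diagonal_one]
  congr 1
  funext v
  rw [← mul_pow, mul_inv_cancel₀ hc, one_pow]

theorem dg_mul' (deg : V → ℕ) {c : ℚ} (hc : c ≠ 0) : dg deg c⁻¹ * dg deg c = 1 := by
  unfold dg
  rw [Matrix.diagonal_mul_diagonal, ← Matrix.diagonal_one]
  congr 1
  funext v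
  rw [← mul_pow, inv_mul_cancel₀ hc, one_pow]

/-- the dilation -/
def cj (deg : V → ℕ) (c : ℚ) (hc : c ≠ 0) : Matrix V V ℚ →+* Matrix V V ℚ where
  toFun x := dg deg c * x * dg deg c⁻¹
  map_one' := by rw [mul_one, dg_mul deg hc]
  map_mul' := by
    intro x y
    calc dg deg c * (x * y) * dg deg c⁻¹ = dg deg c * x * 1 * y * dg deg c⁻¹ := by noncomm_ring
      _ = dg deg c * x * (dg deg c⁻¹ * dg deg c) * y * dg deg c⁻¹ := by rw [dg_mul' deg hc]
      _ = dg deg c * x * dg deg c⁻¹ * (dg deg c * y * dg deg c⁻¹) := by noncomm_ring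
  map_zero' := by simp
  map_add' := by
    intro x y
    noncomm_ring

theorem cj_apply (deg : V → ℕ) (c : ℚ) (hc : c ≠ 0) (x : Matrix V V ℚ) :
    cj deg c hc x = dg deg c * x * dg deg c⁻¹ := rfl

theorem cj_entry (deg : V → ℕ) (c : ℚ) (hc : c ≠ 0) (x : Matrix V V ℚ) (v w : V) :
    cj deg c hc x v w = c ^ deg v * x v w * (c⁻¹) ^ deg w := by
  rw [cj_apply]
  unfold dg
  rw [Matrix.mul_diagonal, Matrix.diagonal_mul]

theorem cj_smul (deg : V → ℕ) (c : ℚ) (hc : c ≠ 0) (q : ℚ) (x : Matrix V V ℚ) :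
    cj deg c hc (q • x) = q • cj deg c hc x := by
  rw [cj_apply, cj_apply, mul_smul_comm, smul_mul_assoc]

variable {deg : V → ℕ}

theorem cj_eq_sum {c : ℚ} (hc : c ≠ 0) {x : Matrix V V ℚ} (hx : x ∈ (gF ℚ deg).F 1) :
    cj deg c hc x = ∑ k ∈ range (nN deg + 1), c ^ k • comp deg k x := by
  ext v w
  rw [cj_entry, Matrix.sum_apply]
  simp only [Matrix.smul_apply, comp_apply, smul_eq_mul, mul_ite, mul_zero]
  by_cases h : deg v ≤ deg w
  · rw [hx v w (by omega)]
    simp
  · push Not at h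
    rw [sum_eq_single_of_mem (deg v - deg w)]
    · rw [if_pos (by omega)]
      obtain ⟨k, hk⟩ := Nat.exists_eq_add_of_le h.le
      have e : deg v - deg w = k := by omega
      rw [e, hk, pow_add, inv_pow]
      have h1 : c ^ deg w ≠ 0 := pow_ne_zero _ hc
      field_simp
    · have := deg_lt deg v
      rw [mem_range]
      omega
    · intro b _ hb
      rw [if_neg (by omega)]

theorem hom1_mem {R : Type} [CommRing R] [Algebra ℚ R] {M : Matrix V V R} (h : Hom1 deg M) :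
    M ∈ (gF R deg).F 1 := by
  intro v w hvw
  by_contra h0
  have := h v w h0
  omega

variable {r : ℕ} (ξ : Fin r → Matrix V V ℚ) (hξ : ∀ i, Hom1 deg (ξ i))

theorem expRep_of (i : Fin r) : expRep ξ hξ (FreeGroup.of i) = IsNilpotent.exp (ξ i) := by
  unfold expRep
  rw [MonoidHom.comp_apply, FreeGroup.lift_apply_of]
  rfl

include hξ in
theorem cj_gen (n : ℕ) (hn : (n : ℚ) ≠ 0) (i : Fin r) : cj deg (n : ℚ) hn (ξ i) = n • ξ i := by
  ext v w
  rw [cj_entry, Matrix.smul_apply, nsmul_eq_mul]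
  by_cases h : ξ i v w = 0
  · rw [h]; ring
  · rw [hξ i v w h, inv_pow, pow_succ]
    have h1 : (n : ℚ) ^ deg w ≠ 0 := pow_ne_zero _ hn
    field_simp

/-- the endomorphism of the free group inducing the dilation -/
def phi (r n : ℕ) : FreeGroup (Fin r) →* FreeGroup (Fin r) :=
  FreeGroup.lift (fun i => FreeGroup.of i ^ n)

theorem cj_rep (n : ℕ) (hn : (n : ℚ) ≠ 0) (g : FreeGroup (Fin r)) :
    cj deg (n : ℚ) hn (expRep ξ hξ g) = expRep ξ hξ (phi r n g) := by
  have h : ((cj deg (n : ℚ) hn : Matrix V V ℚ →* Matrix V V ℚ).comp (expRep ξ hξ)) =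
      (expRep ξ hξ).comp (phi r n) := by
    apply FreeGroup.ext_hom
    intro i
    rw [MonoidHom.comp_apply, MonoidHom.comp_apply, expRep_of]
    unfold phi
    rw [FreeGroup.lift_apply_of, map_pow, expRep_of, ← exp_nsmul (hom1_mem (hξ i)), ← cj_gen ξ hξ n hn]
    exact IsNilpotent.map_exp (hξ i).isNilpotent (cj deg (n : ℚ) hn)
  exact congrArg (fun f : FreeGroup (Fin r) →* Matrix V V ℚ => f g) h

theorem cj_mem_F {c : ℚ} (hc : c ≠ 0) {k : ℕ} {x : Matrix V V ℚ} (hx : x ∈ (gF ℚ deg).F k) :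
    cj deg c hc x ∈ (gF ℚ deg).F k := by
  intro v w h
  rw [cj_entry, hx v w h]
  ring

theorem cj_mem_iso {n : ℕ} (hn : (n : ℚ) ≠ 0) {x : Matrix V V ℚ}
    (hx : x ∈ isoSet (gF ℚ deg) (expRep ξ hξ)) :
    cj deg (n : ℚ) hn x ∈ isoSet (gF ℚ deg) (expRep ξ hξ) := by
  obtain ⟨hx1, m, hm, g, hg⟩ := hx
  refine ⟨cj_mem_F hn hx1, m, hm, phi r n g, ?_⟩
  rw [← cj_rep ξ hξ n hn, hg, IsNilpotent.map_exp ((gF ℚ deg).nilp
    (((gF ℚ deg).F 1).nsmul_mem hx1 m)) (cj deg (n : ℚ) hn), map_nsmul]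

theorem comp_mem_L {L : Submodule ℚ (Matrix V V ℚ)}
    (hL : ∀ x, x ∈ L ↔ x ∈ isoSet (gF ℚ deg) (expRep ξ hξ)) {x : Matrix V V ℚ} (hx : x ∈ L)
    (k : ℕ) : comp deg k x ∈ L := by
  have hx' := (hL x).1 hx
  rcases Nat.lt_or_ge k (nN deg + 1) with hk | hk
  · have h1 : ∀ s : ℕ, ∑ n ∈ range (nN deg + 1), ((s ^ n : ℕ) : ℤ) • comp deg n x ∈
        L.toAddSubgroup := by
      intro s
      rcases Nat.eq_zero_or_pos s with rfl | hs
      · rw [sum_eq_single_of_mem 0 (by simp)]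
        · rw [comp_zero_of_mem hx'.1, smul_zero]
          exact L.zero_mem
        · intro n _ hn
          rw [zero_pow hn]
          simp
      · have hs0 : (s : ℚ) ≠ 0 := by exact_mod_cast hs.ne'
        have h2 := (hL _).2 (cj_mem_iso ξ hξ hs0 hx')
        rw [cj_eq_sum hs0 hx'.1] at h2
        have e : ∑ n ∈ range (nN deg + 1), ((s ^ n : ℕ) : ℤ) • comp deg n x =
            ∑ n ∈ range (nN deg + 1), (s : ℚ) ^ n • comp deg n x := by
          refine sum_congr rfl fun n _ => ?_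
          rw [← Int.cast_smul_eq_zsmul ℚ]
          push_cast
          rfl
        rw [e]
        exact h2
    have h2 : vdm (nN deg) • comp deg k x ∈ L := vdm_mem (nN deg) L.toAddSubgroup _ h1 k hk
    have h3 := L.smul_mem ((vdm (nN deg) : ℤ) : ℚ)⁻¹ h2
    rwa [← Int.cast_smul_eq_zsmul ℚ, inv_smul_smul₀ (by exact_mod_cast vdm_ne_zero (nN deg))] at h3
  · rw [comp_eq_zero (by omega)]
    exact L.zero_mem

end Pool.Agent.TH365.NB
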