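import Pool.Agent.TH365.NB.A2

/-!
# The real span of the rational closure
-/

set_option autoImplicit false

namespace Pool.Agent.TH365.NB

open Finset Pool.Agent.TH91.RF Pool.Agent.TH91.NB

variable {V : Type} [Fintype V] [DecidableEq V] {deg : V → ℕ}

/-- the cast of a rational matrix -/
noncomputable def io (V : Type) [Fintype V] [DecidableEq V] : Matrix V V ℚ →+* Matrix V V ℝ :=
  (algebraMap ℚ ℝ).mapMatrix

theorem io_apply (x : Matrix V V ℚ) (v w : V) : io V x v w = ((x v w : ℚ) : ℝ) := rfl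

theorem io_mem {k : ℕ} {x : Matrix V V ℚ} : io V x ∈ (gF ℝ deg).F k ↔ x ∈ (gF ℚ deg).F k := by
  rw [mem_gF, mem_gF]
  refine forall_congr' fun v => forall_congr' fun w => forall_congr' fun _ => ?_
  rw [io_apply]
  exact Rat.cast_eq_zero

theorem io_exp {x : Matrix V V ℚ} (hx : x ∈ (gF ℚ deg).F 1) :
    io V (IsNilpotent.exp x) = IsNilpotent.exp (io V x) :=
  IsNilpotent.map_exp ((gF ℚ deg).nilp hx) (io V)

theorem io_inj : Function.Injective (io V) := by
  intro x y h
  ext v w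
  have h1 := congrFun (congrFun h v) w
  rw [io_apply, io_apply] at h1
  exact_mod_cast h1

theorem io_comp (k : ℕ) (x : Matrix V V ℚ) : io V (comp deg k x) = comp deg k (io V x) := by
  ext v w
  rw [io_apply, comp_apply, comp_apply, io_apply]
  split_ifs <;> simp

theorem io_smul (q : ℚ) (x : Matrix V V ℚ) : io V (q • x) = (q : ℝ) • io V x := by
  ext v w
  rw [io_apply, Matrix.smul_apply, Matrix.smul_apply, io_apply, smul_eq_mul, smul_eq_mul]
  push_cast
  rfl

theorem gF_smul {k : ℕ} {x : Matrix V V ℝ} (hx : x ∈ (gF ℝ deg).F k) (c : ℝ) :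
    c • x ∈ (gF ℝ deg).F k := by
  intro v w h
  rw [Matrix.smul_apply, hx v w h, smul_zero]

/-- the real span -/
noncomputable def LR (L : Submodule ℚ (Matrix V V ℚ)) : Submodule ℝ (Matrix V V ℝ) :=
  Submodule.span ℝ (io V '' L)

variable {L : Submodule ℚ (Matrix V V ℚ)}

theorem io_mem_LR {x : Matrix V V ℚ} (hx : x ∈ L) : io V x ∈ LR L :=
  Submodule.subset_span ⟨x, hx, rfl⟩

/-- rational elements of the real span -/
theorem mem_of_io_mem {x : Matrix V V ℚ} (hx : io V x ∈ LR L) : x ∈ L := by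
  by_contra hcon
  obtain ⟨f, hf, hfL⟩ := Submodule.exists_le_ker_of_notMem hcon
  set a : V → V → ℚ := fun v w => f (Matrix.single v w 1) with ha
  have hfa : ∀ M : Matrix V V ℚ, f M = ∑ v, ∑ w, a v w * M v w := by
    intro M
    conv_lhs => rw [Matrix.matrix_eq_sum_single M]
    rw [map_sum]
    refine sum_congr rfl fun v _ => ?_
    rw [map_sum]
    refine sum_congr rfl fun w _ => ?_
    have e : Matrix.single v w (M v w) = M v w • Matrix.single v w (1 : ℚ) := by
      rw [Matrix.smul_single, smul_eq_mul, mul_one]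
    rw [e, map_smul, ha, smul_eq_mul, mul_comm]
  let g : Matrix V V ℝ →ₗ[ℝ] ℝ :=
    { toFun := fun M => ∑ v, ∑ w, (a v w : ℝ) * M v w
      map_add' := by
        intro M M'
        simp only [Matrix.add_apply, mul_add, sum_add_distrib]
      map_smul' := by
        intro c M
        simp only [Matrix.smul_apply, smul_eq_mul, RingHom.id_apply, mul_sum]
        refine sum_congr rfl fun v _ => sum_congr rfl fun w _ => ?_
        ring }
  have hg : ∀ M : Matrix V V ℚ, g (io V M) = ((f M : ℚ) : ℝ) := by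
    intro M
    rw [hfa]
    push_cast
    rfl
  have h1 : LR L ≤ LinearMap.ker g := by
    refine Submodule.span_le.2 ?_
    rintro _ ⟨y, hy, rfl⟩
    have h2 : f y = 0 := hfL hy
    have h3 : g (io V y) = 0 := by rw [hg, h2, Rat.cast_zero]
    exact h3
  have h2 : g (io V x) = 0 := h1 hx
  rw [hg] at h2
  exact hf (by exact_mod_cast h2)

theorem LR_mem_F (hL1 : L ≤ (gF ℚ deg).F 1) {x : Matrix V V ℝ} (hx : x ∈ LR L) :
    x ∈ (gF ℝ deg).F 1 := by
  unfold LR at hx
  induction hx using Submodule.span_induction with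
  | mem x hx =>
    obtain ⟨y, hy, rfl⟩ := hx
    exact io_mem.2 (hL1 hy)
  | zero => exact Submodule.zero_mem _
  | add x y _ _ hx hy => exact Submodule.add_mem _ hx hy
  | smul c x _ hx => exact gF_smul hx c

theorem LR_br (hbr : ∀ u ∈ L, ∀ v ∈ L, u * v - v * u ∈ L) {x y : Matrix V V ℝ} (hx : x ∈ LR L)
    (hy : y ∈ LR L) : x * y - y * x ∈ LR L := by
  unfold LR at hx
  induction hx using Submodule.span_induction with
  | mem x hx =>
    obtain ⟨x, hx, rfl⟩ := hx
    unfold LR at hy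
    induction hy using Submodule.span_induction with
    | mem y hy =>
      obtain ⟨y, hy, rfl⟩ := hy
      rw [← map_mul, ← map_mul, ← map_sub]
      exact io_mem_LR (hbr x hx y hy)
    | zero => simp
    | add a b _ _ iha ihb =>
      have e : io V x * (a + b) - (a + b) * io V x =
          (io V x * a - a * io V x) + (io V x * b - b * io V x) := by noncomm_ring
      rw [e]
      exact (LR L).add_mem iha ihb
    | smul c a _ iha =>
      have e : io V x * (c • a) - (c • a) * io V x = c • (io V x * a - a * io V x) := by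
        rw [mul_smul_comm, smul_mul_assoc, smul_sub]
      rw [e]
      exact (LR L).smul_mem c iha
  | zero => simp
  | add a b _ _ iha ihb =>
    have e : (a + b) * y - y * (a + b) = (a * y - y * a) + (b * y - y * b) := by noncomm_ring
    rw [e]
    exact (LR L).add_mem iha ihb
  | smul c a _ iha =>
    have e : (c • a) * y - y * (c • a) = c • (a * y - y * a) := by
      rw [mul_smul_comm, smul_mul_assoc, smul_sub]
    rw [e]
    exact (LR L).smul_mem c iha

theorem LR_qsmul {x : Matrix V V ℝ} (hx : x ∈ LR L) (q : ℚ) : q • x ∈ LR L := by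
  rw [← Rat.cast_smul_eq_qsmul ℝ]
  exact (LR L).smul_mem _ hx

theorem LR_lieLat (hL1 : L ≤ (gF ℚ deg).F 1) (hbr : ∀ u ∈ L, ∀ v ∈ L, u * v - v * u ∈ L) :
    LieLat (gF ℝ deg) (LR L).toAddSubgroup :=
  ⟨fun _ hx => LR_mem_F hL1 hx, fun _ hu _ hv => LR_qsmul (LR_br hbr hu hv) _⟩

/-- the ideal of elements of filtration `≥ k + 1` -/
theorem LR_lieIdl (hL1 : L ≤ (gF ℚ deg).F 1) (hbr : ∀ u ∈ L, ∀ v ∈ L, u * v - v * u ∈ L) (k : ℕ) :
    LieIdl (nN deg) (LR L).toAddSubgroup
      ((LR L).toAddSubgroup ⊓ ((gF ℝ deg).F (k + 1)).toAddSubgroup) := by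
  refine ⟨inf_le_left, fun u hu v hv => ⟨LR_qsmul (LR_br hbr hu hv.1) _, ?_⟩⟩
  have hu1 := LR_mem_F hL1 hu
  refine Submodule.smul_mem _ _ (Submodule.sub_mem _ ?_ ?_)
  · exact (gF ℝ deg).anti (by omega) ((gF ℝ deg).mul hu1 hv.2)
  · exact (gF ℝ deg).anti (by omega) ((gF ℝ deg).mul hv.2 hu1)

/-- a finite spanning set of integral elements -/
theorem exists_fin (L : Submodule ℚ (Matrix V V ℚ)) : ∃ s : Finset (Matrix V V ℚ),
    (∀ b ∈ s, b ∈ L ∧ b ∈ iM V) ∧
    ∀ x ∈ LR L, ∃ c : Matrix V V ℚ → ℝ, x = ∑ b ∈ s, c b • io V b := by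
  obtain ⟨s, hs⟩ := lat_fg L
  refine ⟨s, fun b hb => ?_, fun x hx => ?_⟩
  · have h1 : b ∈ Submodule.span ℤ (s : Set (Matrix V V ℚ)) := Submodule.subset_span hb
    rw [hs] at h1
    exact h1
  · unfold LR at hx
    induction hx using Submodule.span_induction with
    | mem x hx =>
      obtain ⟨y, hy, rfl⟩ := hx
      obtain ⟨m, hm, hmy⟩ := exists_smul_lat hy
      have h1 : m • y ∈ Submodule.span ℤ (s : Set (Matrix V V ℚ)) := by
        rw [hs]
        exact hmy
      obtain ⟨f, _, hf⟩ := Submodule.mem_span_finset.1 h1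
      refine ⟨fun b => (m : ℝ)⁻¹ * (f b : ℝ), ?_⟩
      have h2 : io V (m • y) = ∑ b ∈ s, (f b : ℝ) • io V b := by
        rw [← hf, map_sum]
        refine sum_congr rfl fun b _ => ?_
        rw [map_zsmul, Int.cast_smul_eq_zsmul]
      have hm0 : (m : ℝ) ≠ 0 := by exact_mod_cast hm.ne'
      rw [map_nsmul, ← Nat.cast_smul_eq_nsmul ℝ] at h2
      have h3 : io V y = (m : ℝ)⁻¹ • ((m : ℝ) • io V y) := by rw [inv_smul_smul₀ hm0]
      rw [h3, h2, smul_sum]
      exact sum_congr rfl fun b _ => by rw [smul_smul]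
    | zero => exact ⟨fun _ => 0, by simp⟩
    | add x y _ _ hx hy =>
      obtain ⟨c, hc⟩ := hx
      obtain ⟨c', hc'⟩ := hy
      refine ⟨fun b => c b + c' b, ?_⟩
      rw [hc, hc', ← sum_add_distrib]
      exact sum_congr rfl fun b _ => by rw [add_smul]
    | smul a x _ hx =>
      obtain ⟨c, hc⟩ := hx
      refine ⟨fun b => a * c b, ?_⟩
      rw [hc, smul_sum]
      exact sum_congr rfl fun b _ => by rw [smul_smul]

/-! ### integrality of exponentials and logarithms -/

theorem exp_iM {y : Matrix V V ℚ} (hy : y ∈ iM V) (hy1 : y ∈ (gF ℚ deg).F 1) :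
    IsNilpotent.exp (bigM (nN deg) • y) ∈ iM V := by
  rw [(gF ℚ deg).exp_eq (((gF ℚ deg).F 1).nsmul_mem hy1 _)]
  refine AddSubgroup.sum_mem _ fun i hi => ?_
  rw [mem_range] at hi
  rcases Nat.eq_zero_or_pos i with rfl | hi0
  · simpa using iM_one
  · obtain ⟨c, hc⟩ := LieLat.fact_dvd_bigM_pow (N := nN deg) hi i hi0
    have h3 : ((i.factorial : ℕ) : ℚ) ≠ 0 := by positivity
    have e : ((i.factorial : ℕ) : ℚ)⁻¹ • (bigM (nN deg) • y) ^ i = c • y ^ i := by
      rw [smul_pow, hc, mul_smul, ← Nat.cast_smul_eq_nsmul ℚ i.factorial, inv_smul_smul₀ h3]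
    rw [e]
    exact AddSubgroup.nsmul_mem _ (iM_pow hy i) c

theorem log_step (deg : V → ℕ) (k : ℕ) : ∃ D : ℕ, 0 < D ∧ ∀ w : Matrix V V ℚ, w ∈ iM V →
    w - 1 ∈ (gF ℚ deg).F 1 → ∃ z ∈ (gF ℚ deg).F 1, D • z ∈ iM V ∧
      w - IsNilpotent.exp z ∈ (gF ℚ deg).F (k + 1) := by
  set Φ := gF ℚ deg with hΦ
  induction k with
  | zero =>
    refine ⟨1, one_pos, fun w _ hw1 => ⟨0, Submodule.zero_mem _, ?_, ?_⟩⟩
    · simpa using (iM V).zero_mem
    · rw [IsNilpotent.exp_zero]
      exact hw1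
  | succ k ih =>
    obtain ⟨D, hD, h⟩ := ih
    refine ⟨D ^ nN deg * (nN deg).factorial, Nat.mul_pos (pow_pos hD _) (Nat.factorial_pos _),
      fun w hw hw1 => ?_⟩
    obtain ⟨z, hz, hzi, hzw⟩ := h w hw hw1
    refine ⟨z + (w - IsNilpotent.exp z), Submodule.add_mem _ hz (Φ.anti (by omega) hzw), ?_, ?_⟩
    · rw [smul_add, smul_sub]
      refine AddSubgroup.add_mem _ ?_ (AddSubgroup.sub_mem _ (AddSubgroup.nsmul_mem _ hw _) ?_)
      · obtain ⟨n, hn⟩ : ∃ n, nN deg = n + 1 := ⟨_, rfl⟩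
        have e : (D ^ nN deg * (nN deg).factorial) • z =
            (D ^ n * (nN deg).factorial) • (D • z) := by
          rw [smul_smul]
          congr 1
          rw [hn, pow_succ]
          ring
        rw [e]
        exact AddSubgroup.nsmul_mem _ hzi _
      · rw [Φ.exp_eq hz, smul_sum]
        refine AddSubgroup.sum_mem _ fun i hi => ?_
        rw [mem_range] at hi
        obtain ⟨c, hc⟩ := Nat.factorial_dvd_factorial (Nat.le_of_lt_succ hi)
        have h3 : ((i.factorial : ℕ) : ℚ) ≠ 0 := by positivity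
        have e : (D ^ nN deg * (nN deg).factorial) • (((i.factorial : ℕ) : ℚ)⁻¹ • z ^ i) =
            (c * D ^ (nN deg - i)) • (D • z) ^ i := by
          rw [smul_pow, smul_smul, hc, smul_comm, ← Nat.cast_smul_eq_nsmul ℚ (_ * _), smul_smul,
            ← Nat.cast_smul_eq_nsmul ℚ (_ * _)]
          congr 1
          have e2 : D ^ nN deg = D ^ (nN deg - i) * D ^ i := by
            rw [← pow_add]
            congr 1
            omega
          rw [e2]
          push_cast
          field_simp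
        rw [e]
        exact AddSubgroup.nsmul_mem _ (iM_pow hzi i) _
    · have h1 := Φ.exp_add_sub hz hzw (by omega)
      have e : w - IsNilpotent.exp (z + (w - IsNilpotent.exp z)) =
          -(IsNilpotent.exp (z + (w - IsNilpotent.exp z)) - IsNilpotent.exp z -
            (w - IsNilpotent.exp z)) := by abel
      rw [e]
      exact Submodule.neg_mem _ h1

theorem exists_log (deg : V → ℕ) : ∃ D : ℕ, 0 < D ∧ ∀ w : Matrix V V ℚ, w ∈ iM V →
    w - 1 ∈ (gF ℚ deg).F 1 → ∃ z ∈ (gF ℚ deg).F 1, D • z ∈ iM V ∧ w = IsNilpotent.exp z := by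
  obtain ⟨D, hD, h⟩ := log_step deg (nN deg)
  refine ⟨D, hD, fun w hw hw1 => ?_⟩
  obtain ⟨z, hz, hzi, hzw⟩ := h w hw hw1
  exact ⟨z, hz, hzi, sub_eq_zero.1 ((gF ℚ deg).eq_zero_of_le (by omega) hzw)⟩

end Pool.Agent.TH365.NB
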