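import Pool.Agent.TH365.NB.A3

/-!
# Dilated integral points and cocompactness
-/

set_option autoImplicit false

namespace Pool.Agent.TH365.NB

open Finset Pool.Agent.TH91.RF Pool.Agent.TH91.NB

variable {V : Type} [Fintype V] [DecidableEq V] {deg : V → ℕ}

theorem comp_iM (k : ℕ) {x : Matrix V V ℚ} (hx : x ∈ iM V) : comp deg k x ∈ iM V := by
  intro v w
  rw [comp_apply]
  split_ifs with h
  · exact hx v w
  · exact ⟨0, by simp⟩

omit [Fintype V] [DecidableEq V] in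
theorem comp_nsmul (k n : ℕ) (x : Matrix V V ℚ) : comp deg k (n • x) = n • comp deg k x := by
  ext v w
  rw [Matrix.smul_apply, comp_apply, comp_apply, Matrix.smul_apply]
  split_ifs <;> simp

/-- dilations of integral points in the real group -/
theorem claimA {r : ℕ} (ξ : Fin r → Matrix V V ℚ) (hξ : ∀ i, Hom1 deg (ξ i))
    {L : Submodule ℚ (Matrix V V ℚ)} (hL : ∀ x, x ∈ L ↔ x ∈ isoSet (gF ℚ deg) (expRep ξ hξ))
    (hbr : ∀ u ∈ L, ∀ v ∈ L, u * v - v * u ∈ L) :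
    ∃ M : ℕ, 0 < M ∧ ∀ x ∈ LR L, IntM (IsNilpotent.exp x) →
      ∃ g, ∀ v w, (M : ℝ) ^ (deg v) * IsNilpotent.exp x v w =
        ((expRep ξ hξ g v w : ℚ) : ℝ) * (M : ℝ) ^ (deg w) := by
  have hL1 : L ≤ (gF ℚ deg).F 1 := fun x hx => ((hL x).1 hx).1
  obtain ⟨D, hD, hlog⟩ := exists_log deg
  obtain ⟨q, hq, huni⟩ := exists_uniform (gF ℚ deg) (lat_lieRg hL1 hbr) (lat_fg L)
    (expRep ξ hξ) (fun x hx => ((hL x).1 hx.1).2)
  refine ⟨D * q, Nat.mul_pos hD hq, fun x hx hint => ?_⟩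
  choose z hz using hint
  set γ : Matrix V V ℚ := Matrix.of fun v w => (z v w : ℚ) with hγ
  have hioγ : io V γ = IsNilpotent.exp x := by
    ext v w
    rw [io_apply, hz, hγ, Matrix.of_apply]
    simp
  have hx1 := LR_mem_F hL1 hx
  have hγ1 : γ - 1 ∈ (gF ℚ deg).F 1 := by
    rw [← io_mem, map_sub, map_one, hioγ]
    exact (gF ℝ deg).exp_sub_one_mem hx1
  obtain ⟨y, hy1, hyi, hy⟩ := hlog γ (fun v w => ⟨z v w, rfl⟩) hγ1
  have hxy : io V y = x := by
    refine (gF ℝ deg).exp_inj (io_mem.2 hy1) hx1 ?_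
    rw [← io_exp hy1, ← hy, hioγ]
  have hyL : y ∈ L := mem_of_io_mem (by rw [hxy]; exact hx)
  have hM0 : ((D * q : ℕ) : ℚ) ≠ 0 := by
    exact_mod_cast (Nat.mul_pos hD hq).ne'
  have hDy : ∀ k, D • comp deg k y ∈ lat L := by
    intro k
    refine ⟨L.nsmul_mem (comp_mem_L ξ hξ hL hyL k) _, ?_⟩
    rw [← comp_nsmul]
    exact comp_iM k hyi
  have hsum : cj deg ((D * q : ℕ) : ℚ) hM0 y = q • ∑ k ∈ range (nN deg),
      ((D * q) ^ k) • (D • comp deg (k + 1) y) := by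
    rw [cj_eq_sum hM0 hy1, sum_range_succ', comp_zero_of_mem hy1, smul_zero, add_zero, smul_sum]
    refine sum_congr rfl fun k _ => ?_
    rw [smul_smul, smul_smul, ← Nat.cast_smul_eq_nsmul ℚ]
    congr 1
    push_cast
    ring
  obtain ⟨g, hg⟩ := huni (∑ k ∈ range (nN deg), ((D * q) ^ k) • (D • comp deg (k + 1) y))
    (AddSubgroup.sum_mem _ fun k _ => AddSubgroup.nsmul_mem _ (hDy (k + 1)) _)
  refine ⟨g, fun v w => ?_⟩
  have h1 : cj deg ((D * q : ℕ) : ℚ) hM0 γ = expRep ξ hξ g := by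
    rw [hg, ← hsum, hy]
    exact IsNilpotent.map_exp ((gF ℚ deg).nilp hy1) (cj deg ((D * q : ℕ) : ℚ) hM0)
  have h2 := congrFun (congrFun h1 v) w
  rw [cj_entry] at h2
  have h3 : ((D * q : ℕ) : ℚ) ^ deg v * γ v w =
      expRep ξ hξ g v w * ((D * q : ℕ) : ℚ) ^ deg w := by
    rw [← h2, mul_assoc, inv_pow, inv_mul_cancel₀ (pow_ne_zero _ hM0), mul_one]
  rw [← hioγ, io_apply]
  exact_mod_cast h3

/-! ### integral real matrices -/

theorem IntM_io {x : Matrix V V ℚ} (hx : x ∈ iM V) : IntM (io V x) := by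
  intro v w
  obtain ⟨z, hz⟩ := hx v w
  exact ⟨z, by rw [io_apply, hz]; push_cast; rfl⟩

omit [DecidableEq V] in
theorem IntM_mul {x y : Matrix V V ℝ} (hx : IntM x) (hy : IntM y) : IntM (x * y) := by
  intro v w
  choose a ha using hx
  choose b hb using hy
  refine ⟨∑ u, a v u * b u w, ?_⟩
  rw [Matrix.mul_apply]
  push_cast
  exact sum_congr rfl fun u _ => by rw [ha, hb]

theorem exp_neg_of_mul {x y z : Matrix V V ℝ} (hx : x ∈ (gF ℝ deg).F 1)
    (hy : y ∈ (gF ℝ deg).F 1) (hz : z ∈ (gF ℝ deg).F 1)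
    (h : IsNilpotent.exp x * IsNilpotent.exp y = IsNilpotent.exp z) :
    IsNilpotent.exp (-z) = IsNilpotent.exp (-y) * IsNilpotent.exp (-x) := by
  have hxn := (gF ℝ deg).nilp hx
  have hyn := (gF ℝ deg).nilp hy
  have hzn := (gF ℝ deg).nilp hz
  have h1 : IsNilpotent.exp (-y) * IsNilpotent.exp (-x) * IsNilpotent.exp z = 1 := by
    rw [← h]
    calc IsNilpotent.exp (-y) * IsNilpotent.exp (-x) * (IsNilpotent.exp x * IsNilpotent.exp y)
        = IsNilpotent.exp (-y) * (IsNilpotent.exp (-x) * IsNilpotent.exp x) *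
            IsNilpotent.exp y := by noncomm_ring
      _ = 1 := by
        rw [IsNilpotent.exp_neg_mul_exp_self hxn, mul_one, IsNilpotent.exp_neg_mul_exp_self hyn]
  calc IsNilpotent.exp (-z)
      = (IsNilpotent.exp (-y) * IsNilpotent.exp (-x) * IsNilpotent.exp z) *
          IsNilpotent.exp (-z) := by rw [h1, one_mul]
    _ = IsNilpotent.exp (-y) * IsNilpotent.exp (-x) *
          (IsNilpotent.exp z * IsNilpotent.exp (-z)) := by noncomm_ring
    _ = _ := by rw [IsNilpotent.exp_mul_exp_neg_self hzn, mul_one]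

section B

variable {L : Submodule ℚ (Matrix V V ℚ)}

theorem LR_exp_mul (hL1 : L ≤ (gF ℚ deg).F 1) (hbr : ∀ u ∈ L, ∀ v ∈ L, u * v - v * u ∈ L)
    {x y : Matrix V V ℝ} (hx : x ∈ LR L) (hy : y ∈ LR L) :
    ∃ z ∈ LR L, IsNilpotent.exp x * IsNilpotent.exp y = IsNilpotent.exp z :=
  (LR_lieLat hL1 hbr).exp_mul hx hy

/-- cocompactness, level by level -/
theorem claimB_step (hL1 : L ≤ (gF ℚ deg).F 1) (hbr : ∀ u ∈ L, ∀ v ∈ L, u * v - v * u ∈ L)
    (hcomp : ∀ x ∈ L, ∀ k, comp deg k x ∈ L) (k : ℕ) :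
    ∃ C : ℝ, ∀ x ∈ LR L, ∃ z ∈ LR L, ∃ x' ∈ LR L, IntM (IsNilpotent.exp z) ∧
      IntM (IsNilpotent.exp (-z)) ∧
      IsNilpotent.exp x * IsNilpotent.exp z = IsNilpotent.exp x' ∧
      ∀ v w, deg v < deg w + (k + 1) → |x' v w| ≤ C := by
  induction k with
  | zero =>
    refine ⟨0, fun x hx => ⟨0, (LR L).zero_mem, x, hx, ?_, ?_, ?_, fun v w h => ?_⟩⟩
    · rw [IsNilpotent.exp_zero, ← map_one (io V)]
      exact IntM_io iM_one
    · rw [neg_zero, IsNilpotent.exp_zero, ← map_one (io V)]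
      exact IntM_io iM_one
    · rw [IsNilpotent.exp_zero, mul_one]
    · rw [LR_mem_F hL1 hx v w h, abs_zero]
  | succ k ih =>
    obtain ⟨C, hC⟩ := ih
    obtain ⟨s, hs, hspan⟩ := exists_fin L
    set B : ℕ := bigM (nN deg) with hB
    have hB0 : (0 : ℝ) < B := by exact_mod_cast bigM_pos (nN deg)
    set C' : ℝ := ∑ b ∈ s, ∑ v, ∑ w, (B : ℝ) * |((b v w : ℚ) : ℝ)| with hC'
    refine ⟨max C C', fun x hx => ?_⟩
    obtain ⟨z, hz, x', hx', hi1, hi2, he, hb⟩ := hC x hx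
    obtain ⟨c, hc⟩ := hspan x' hx'
    set n : Matrix V V ℚ → ℤ := fun b => ⌊c b / B⌋ with hn
    set y : Matrix V V ℚ := -∑ b ∈ s, n b • comp deg (k + 1) b with hy
    have hyL : y ∈ L := L.neg_mem (Submodule.sum_mem _ fun b hb' =>
      L.toAddSubgroup.zsmul_mem (hcomp b (hs b hb').1 _) _)
    have hyi : y ∈ iM V := (iM V).neg_mem (AddSubgroup.sum_mem _ fun b hb' =>
      AddSubgroup.zsmul_mem _ (comp_iM _ (hs b hb').2) _)
    have hyk : y ∈ (gF ℚ deg).F (k + 1) := Submodule.neg_mem _ (Submodule.sum_mem _ fun b _ =>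
      ((gF ℚ deg).F (k + 1)).toAddSubgroup.zsmul_mem (comp_mem _ _) _)
    have hyn : -y ∈ iM V := (iM V).neg_mem hyi
    set Y : Matrix V V ℝ := io V (B • y) with hY
    have hYL : Y ∈ LR L := io_mem_LR (L.nsmul_mem hyL B)
    have hYk : Y ∈ (gF ℝ deg).F (k + 1) := io_mem.2 (((gF ℚ deg).F (k + 1)).nsmul_mem hyk B)
    have hBy1 : B • y ∈ (gF ℚ deg).F 1 := hL1 (L.nsmul_mem hyL B)
    have hYe : IntM (IsNilpotent.exp Y) := by
      rw [hY, ← io_exp hBy1]
      exact IntM_io (exp_iM hyi (hL1 hyL))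
    have hYe' : IntM (IsNilpotent.exp (-Y)) := by
      have e : -Y = io V (B • (-y)) := by rw [hY, ← map_neg, ← smul_neg]
      rw [e, ← io_exp (hL1 (L.nsmul_mem (L.neg_mem hyL) B))]
      exact IntM_io (exp_iM hyn (hL1 (L.neg_mem hyL)))
    have hx'1 := LR_mem_F hL1 hx'
    obtain ⟨j, hj, hej⟩ := (LR_lieLat hL1 hbr).exp_mul_add (LR_lieIdl hL1 hbr (k + 1)) hx' hYL (by
      refine ⟨LR_qsmul (LR_br hbr hx' hYL) _, Submodule.smul_mem _ _ (Submodule.sub_mem _ ?_ ?_)⟩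
      · exact (gF ℝ deg).anti (by omega) ((gF ℝ deg).mul hx'1 hYk)
      · exact (gF ℝ deg).anti (by omega) ((gF ℝ deg).mul hYk hx'1))
    obtain ⟨z', hz', hez'⟩ := LR_exp_mul hL1 hbr hz hYL
    have hj1 : j ∈ LR L := hj.1
    have hj2 : j ∈ (gF ℝ deg).F (k + 1 + 1) := hj.2
    refine ⟨z', hz', x' + Y + j, (LR L).add_mem ((LR L).add_mem hx' hYL) hj1, ?_, ?_, ?_, ?_⟩
    · rw [← hez']
      exact IntM_mul hi1 hYe
    · rw [exp_neg_of_mul (LR_mem_F hL1 hz) (LR_mem_F hL1 hYL) (LR_mem_F hL1 hz') hez']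
      exact IntM_mul hYe' hi2
    · rw [← hez', ← mul_assoc, he, hej]
    · intro v w hvw
      rw [Matrix.add_apply, Matrix.add_apply, hj2 v w (by omega), add_zero]
      rcases Nat.lt_or_ge (deg v) (deg w + (k + 1)) with h | h
      · rw [hYk v w h, add_zero]
        exact (hb v w h).trans (le_max_left _ _)
      · have hdeg : deg v = deg w + (k + 1) := by omega
        refine le_trans ?_ (le_max_right _ _)
        have e1 : x' v w + Y v w = ∑ b ∈ s, (c b - B * n b) * ((b v w : ℚ) : ℝ) := by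
          have e2 : x' v w = ∑ b ∈ s, c b * ((b v w : ℚ) : ℝ) := by
            rw [hc, Matrix.sum_apply]
            rfl
          have e3 : Y v w = -∑ b ∈ s, (B * n b : ℝ) * ((b v w : ℚ) : ℝ) := by
            rw [hY, io_apply, Matrix.smul_apply, hy, Matrix.neg_apply, Matrix.sum_apply,
              nsmul_eq_mul, mul_neg, mul_sum, Rat.cast_neg, Rat.cast_sum]
            congr 1
            refine sum_congr rfl fun b _ => ?_
            rw [Matrix.smul_apply, comp_apply, if_pos hdeg, zsmul_eq_mul]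
            push_cast
            ring
          rw [e2, e3, ← sub_eq_add_neg, ← sum_sub_distrib]
          exact sum_congr rfl fun b _ => by ring
        rw [e1]
        refine (abs_sum_le_sum_abs _ _).trans ?_
        refine sum_le_sum fun b _ => ?_
        have h4 : |c b - B * n b| ≤ B := by
          have h5 := Int.floor_le (c b / B)
          have h6 := (Int.lt_floor_add_one (c b / B)).le
          rw [le_div_iff₀ hB0] at h5
          rw [div_le_iff₀ hB0] at h6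
          rw [abs_le]
          constructor <;> simp only [hn] <;> linarith
        calc |(c b - B * n b) * ((b v w : ℚ) : ℝ)| = |c b - B * n b| * |((b v w : ℚ) : ℝ)| :=
              abs_mul _ _
          _ ≤ B * |((b v w : ℚ) : ℝ)| := by gcongr
          _ ≤ ∑ w, (B : ℝ) * |((b v w : ℚ) : ℝ)| :=
              single_le_sum (f := fun w => (B : ℝ) * |((b v w : ℚ) : ℝ)|)
                (fun w _ => by positivity) (mem_univ w)
          _ ≤ ∑ v, ∑ w, (B : ℝ) * |((b v w : ℚ) : ℝ)| :=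
              single_le_sum (f := fun v => ∑ w, (B : ℝ) * |((b v w : ℚ) : ℝ)|)
                (fun v _ => sum_nonneg fun w _ => by positivity) (mem_univ v)

theorem claimB (hL1 : L ≤ (gF ℚ deg).F 1) (hbr : ∀ u ∈ L, ∀ v ∈ L, u * v - v * u ∈ L)
    (hcomp : ∀ x ∈ L, ∀ k, comp deg k x ∈ L) :
    ∃ C : ℝ, ∀ x ∈ LR L, ∃ z ∈ LR L, ∃ x' ∈ LR L, IntM (IsNilpotent.exp z) ∧
      IntM (IsNilpotent.exp (-z)) ∧
      IsNilpotent.exp x * IsNilpotent.exp z = IsNilpotent.exp x' ∧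
      ∀ v w, |x' v w| ≤ C := by
  obtain ⟨C, hC⟩ := claimB_step hL1 hbr hcomp (nN deg)
  refine ⟨C, fun x hx => ?_⟩
  obtain ⟨z, hz, x', hx', h1, h2, h3, h4⟩ := hC x hx
  exact ⟨z, hz, x', hx', h1, h2, h3, fun v w => h4 v w (by have := deg_lt deg v; omega)⟩

end B

end Pool.Agent.TH365.NB
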